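import Pool.Agent.Helper47.FLG.Alg2

/-!
# Packet FLG-SA: first strictness statement
-/

namespace Pool.Agent.Helper95.FLG

open Finset Pool.Agent.Helper47.RFn Pool.Agent.Helper47.FLG

/-- completion of an orthonormal family -/
theorem ext_on {n b : ℕ} {ι : Type} [Fintype ι] [DecidableEq ι] (e : ι → Fin n → ℝ)
    (he : ∀ i j, dot (e i) (e j) = if i = j then 1 else 0) (h : Fintype.card ι + b = n) :
    ∃ w : Fin b → Fin n → ℝ, ON w ∧ ∀ i j, dot (e i) (w j) = 0 := by
  classical
  let E := EuclideanSpace ℝ (Fin n)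
  have hin : ∀ u v : E, inner ℝ u v = dot (fun i => u i) (fun i => v i) := by
    intro u v
    simp only [PiLp.inner_apply, dot]
    refine Finset.sum_congr rfl fun i _ => ?_
    simp [mul_comm]
  let v : (ι ⊕ Fin b) → E := fun s => Sum.elim (fun i => (WithLp.toLp 2 (e i) : E)) (fun _ => 0) s
  let s : Set (ι ⊕ Fin b) := Set.range Sum.inl
  have hv : Orthonormal ℝ (s.domRestrict v) := by
    rw [orthonormal_iff_ite]
    rintro ⟨_, ⟨i, rfl⟩⟩ ⟨_, ⟨j, rfl⟩⟩
    have h1 : s.domRestrict v ⟨Sum.inl i, ⟨i, rfl⟩⟩ = (WithLp.toLp 2 (e i) : E) := rfl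
    have h2 : s.domRestrict v ⟨Sum.inl j, ⟨j, rfl⟩⟩ = (WithLp.toLp 2 (e j) : E) := rfl
    rw [h1, h2, hin]
    have h3 := he i j
    by_cases hij : i = j
    · subst hij
      simpa using h3
    · rw [if_neg hij] at h3
      rw [if_neg (fun hc => hij (Sum.inl_injective (congrArg Subtype.val hc)))]
      exact h3
  have hcard : Module.finrank ℝ E = Fintype.card (ι ⊕ Fin b) := by
    simp [E, ← h]
  obtain ⟨B, hB⟩ := hv.exists_orthonormalBasis_extension_of_card_eq hcard
  have hBo := B.orthonormal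
  rw [orthonormal_iff_ite] at hBo
  refine ⟨fun j i => B (Sum.inr j) i, ?_, ?_⟩
  · intro i j
    have := hBo (Sum.inr i) (Sum.inr j)
    rw [hin] at this
    rw [this]
    simp
  · intro i j
    have h1 := hBo (Sum.inl i) (Sum.inr j)
    rw [hin] at h1
    have h2 : B (Sum.inl i) = (WithLp.toLp 2 (e i) : E) := hB (Sum.inl i) ⟨i, rfl⟩
    rw [h2] at h1
    simpa using h1

theorem dot_comm' {n : ℕ} (u v : Fin n → ℝ) : dot u v = dot v u := by
  simp only [dot, mul_comm]

theorem dot_lin {n : ℕ} (s t : ℝ) (u v w : Fin n → ℝ) :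
    dot (fun i => s * u i + t * v i) w = s * dot u w + t * dot v w := by
  simp only [dot, Finset.mul_sum, ← Finset.sum_add_distrib]
  refine Finset.sum_congr rfl fun i _ => by ring

theorem dot_sum' {n k : ℕ} (c : Fin k → ℝ) (X : Fin k → Fin n → ℝ) (w : Fin n → ℝ) :
    dot (fun j => ∑ i, c i * X i j) w = ∑ i, c i * dot (X i) w := by
  simp only [dot, Finset.sum_mul, Finset.mul_sum]
  rw [Finset.sum_comm]
  refine Finset.sum_congr rfl fun i _ => Finset.sum_congr rfl fun j _ => by ring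

theorem nrm_dot {n : ℕ} (u : Fin n → ℝ) : nrm u = dot u u := by
  simp only [nrm, dot, sq]

theorem nrm_zero_iff {n : ℕ} (u : Fin n → ℝ) (h : nrm u = 0) : u = fun _ => 0 := by
  funext i
  have h1 := (Finset.sum_eq_zero_iff_of_nonneg (fun i _ => sq_nonneg (u i))).1 h i (Finset.mem_univ i)
  exact pow_eq_zero_iff (two_ne_zero) |>.1 h1

/-- eigenvectors form a subspace -/
theorem Eg_lin {n : ℕ} (hR : G_R4T) {R : T4 n} {z u v : Fin n → ℝ} {s : ℝ} (a b : ℝ)
    (hu : Eg R z s u) (hv : Eg R z s v) : Eg R z s (fun i => a * u i + b * v i) := by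
  refine ⟨by rw [dot_lin, hu.1, hv.1]; ring, fun p => ?_⟩
  rw [((hR n).1 R u v z p z a b).2.2.2, hu.2, hv.2, dot_comm' p (fun i => a * u i + b * v i), dot_lin,
    dot_comm' u p, dot_comm' v p]
  ring

theorem R4_zero4 {n : ℕ} (R : T4 n) (a b c : Fin n → ℝ) : R4 R a b c (fun _ => 0) = 0 := by
  simp [R4]

theorem Eg_zero {n : ℕ} {R : T4 n} {z : Fin n → ℝ} {s : ℝ} : Eg R z s (fun _ => 0) := by
  refine ⟨by simp [dot], fun p => ?_⟩
  rw [R4_zero4]
  simp [dot]

theorem Eg_sum {n k : ℕ} (hR : G_R4T) {R : T4 n} {z : Fin n → ℝ} {s : ℝ} (c : Fin k → ℝ)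
    (X : Fin k → Fin n → ℝ) (hX : ∀ i, Eg R z s (X i)) : Eg R z s (fun j => ∑ i, c i * X i j) := by
  classical
  have h : ∀ S : Finset (Fin k), Eg R z s (fun j => ∑ i ∈ S, c i * X i j) := by
    intro S
    induction S using Finset.induction_on with
    | empty => simpa using (Eg_zero (R := R) (z := z) (s := s))
    | insert a S ha ih =>
      have h1 := Eg_lin hR (c a) 1 (hX a) ih
      have h2 : (fun j => ∑ i ∈ insert a S, c i * X i j) =
          fun j => c a * X a j + 1 * ∑ i ∈ S, c i * X i j := by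
        funext j
        rw [Finset.sum_insert ha, one_mul]
      rw [h2]
      exact h1
  exact h Finset.univ

theorem Eg_smul {n : ℕ} (hR : G_R4T) {R : T4 n} {z q : Fin n → ℝ} {s : ℝ} (c : ℝ) (h : Eg R z s q) :
    Eg (c • R) z (c * s) q := by
  refine ⟨h.1, fun p => ?_⟩
  rw [((hR n).2.1 R R z p z q c).2, h.2]
  ring

theorem Q_smul {n : ℕ} (c : ℝ) (R : T4 n) : Q (c • R) = (c ^ 2) • Q R := by
  have hB : ∀ a b d f : Fin n, BB (c • R) (c • R) a b d f = c ^ 2 * BB R R a b d f := by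
    intro a b d f
    simp only [BB, Pi.smul_apply, smul_eq_mul, Finset.mul_sum]
    refine Finset.sum_congr rfl fun i _ => Finset.sum_congr rfl fun j _ => by ring
  funext a b d f
  simp only [Q, hB, Pi.smul_apply, smul_eq_mul]
  ring

theorem hh_smul {n : ℕ} (hLN : Goal_LN) (c : ℝ) (R : T4 n) : hh (c • R) = c ^ 2 * hh R := by
  obtain ⟨_, _, _, h4, _, h6, _⟩ := hLN n
  have h0 : Ric0 (c • R) = c • Ric0 R := by
    unfold Ric0
    rw [h4, h6, smul_sub, smul_smul]
  simp only [hh, h0, Matrix.smul_apply, smul_eq_mul, Finset.mul_sum]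
  refine Finset.sum_congr rfl fun i _ => Finset.sum_congr rfl fun j _ => by ring

theorem K2_smul {n : ℕ} (c : ℝ) (R : T4 n) (u v : Fin n → ℝ) : K2 (c • R) u v = c * K2 R u v := by
  simp only [K2, Pi.smul_apply, smul_eq_mul, Finset.mul_sum]
  refine Finset.sum_congr rfl fun i _ => Finset.sum_congr rfl fun j _ =>
    Finset.sum_congr rfl fun k _ => Finset.sum_congr rfl fun l _ => by ring

theorem elk_smul {n : ℕ} (hLN : Goal_LN) (k : ℕ) (c : ℝ) (R : T4 n) (z : Fin n → ℝ)
    (X : Fin k → Fin n → ℝ) : elk k (c • R) z X = c * elk k R z X := by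
  obtain ⟨_, _, _, h4, _, _, _, _, _, _, _, _, h13, _⟩ := hLN n
  simp only [elk, h4, h13, K2_smul, ← Finset.mul_sum]
  ring

/-- decomposition of a vector orthogonal to `z` -/
theorem split {n k : ℕ} (z : Fin n → ℝ) (X : Fin k → Fin n → ℝ) (hX : ON X) (hXz : ∀ i, dot (X i) z = 0)
    (x : Fin n → ℝ) (hx : dot x z = 0) : ∃ p q : Fin n → ℝ,
      p = (fun j => ∑ i, dot x (X i) * X i j) ∧ (x = fun i => 1 * p i + 1 * q i) ∧ dot q z = 0 ∧
      (∀ i, dot q (X i) = 0) ∧ dot p q = 0 ∧
      nrm x = nrm p + nrm q ∧ dot x p = nrm p ∧ dot x q = nrm q := by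
  set p : Fin n → ℝ := fun j => ∑ i, dot x (X i) * X i j with hp
  set q : Fin n → ℝ := fun i => 1 * x i + (-1) * p i with hq
  have hqX : ∀ i, dot q (X i) = 0 := by
    intro i
    rw [hq, dot_lin, hp, dot_sum']
    have h1 : ∑ a, dot x (X a) * dot (X a) (X i) = dot x (X i) := by
      rw [Finset.sum_eq_single i]
      · rw [hX i i, if_pos rfl, mul_one]
      · intro b _ hb
        rw [hX b i, if_neg hb, mul_zero]
      · intro h
        exact absurd (Finset.mem_univ i) h
    rw [h1]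
    ring
  have hpq : dot p q = 0 := by
    rw [hp, dot_sum']
    refine Finset.sum_eq_zero fun i _ => ?_
    rw [dot_comm' (X i) q, hqX i, mul_zero]
  have hx2 : x = fun i => 1 * p i + 1 * q i := by
    funext i
    rw [hq]
    ring
  have h4 : dot x p = nrm p := by
    conv_lhs => rw [hx2]
    rw [dot_lin, dot_comm' q p, hpq, nrm_dot]
    ring
  have h5 : dot x q = nrm q := by
    conv_lhs => rw [hx2]
    rw [dot_lin, hpq, nrm_dot]
    ring
  refine ⟨p, q, rfl, hx2, ?_, hqX, hpq, ?_, h4, h5⟩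
  · rw [hq, dot_lin, hx, hp, dot_sum']
    simp [hXz]
  · rw [nrm_dot x]
    conv_lhs =>
      arg 1
      rw [hx2]
    rw [dot_lin, dot_comm' p x, dot_comm' q x, h4, h5]
    ring

/-- the case `m = 1`: all flags have zero reaction term if `elk` is not positive -/
theorem key (hSA2 : G_SA2) (hEQF : G_EQF) (hR4 : G_R4T) (hCL : Goal_CL) {n : ℕ} (R : T4 n) (k' l' : ℕ)
    (z : Fin n → ℝ) (X : Fin (k' + 1) → Fin n → ℝ) (hn : 1 + (k' + 1) + (l' + 1) = n) (hFG : FG R)
    (hz : nrm z = 1) (hX : ON X) (hXz : ∀ i, dot (X i) z = 0) (hE4 : ∀ i, Eg R z 4 (X i))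
    (hE1 : ∀ q, dot q z = 0 → (∀ i, dot q (X i) = 0) → Eg R z 1 q) (hle : elk (k' + 1) (Q R) z X ≤ 0) :
    ∀ x y, Ac R z x y → Dz R z x y = 0 := by
  intro x y hA
  have hQ : IsCurv (Q R) := (hCL n).1 R hFG.1
  have hdz : dot z z = 1 := by rw [← nrm_dot, hz]
  obtain ⟨hlin, _, hsym, hK2, hK2s, _⟩ := hR4 n
  -- value of `R_z` on vectors
  have hval : ∀ v : Fin n → ℝ, dot v z = 0 → ∃ p q : Fin n → ℝ,
      (v = fun i => 1 * p i + 1 * q i) ∧ (∀ w, (∀ i, dot w (X i) = 0) → dot p w = 0) ∧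
      (∀ i, dot q (X i) = 0) ∧ dot q z = 0 ∧ nrm v = nrm p + nrm q ∧ K2 R z v = 4 * nrm p + nrm q ∧
      (∀ i, dot p (X i) = dot v (X i)) := by
    intro v hv
    obtain ⟨p, q, hp, hvpq, hqz, hqX, hpq, hn1, hvp, hvq⟩ := split z X hX hXz v hv
    refine ⟨p, q, hvpq, ?_, hqX, hqz, hn1, ?_, ?_⟩
    · intro w hw
      rw [hp, dot_sum']
      refine Finset.sum_eq_zero fun i _ => ?_
      rw [dot_comm' (X i) w, hw i, mul_zero]
    · have hEp : Eg R z 4 p := by
        rw [hp]
        exact Eg_sum hR4 _ X hE4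
      have hEq : Eg R z 1 q := hE1 q hqz hqX
      rw [hK2]
      have h1 : R4 R z v z v = 1 * R4 R z v z p + 1 * R4 R z v z q := by
        conv_lhs =>
          rw [hvpq]
        have h2 := (hlin R p q z (fun i => 1 * p i + 1 * q i) z 1 1).2.2.2
        rw [h2, ← hvpq]
      rw [h1, hEp.2, hEq.2, hvp, hvq]
      ring
    · intro i
      have h3 : dot v (X i) = 1 * dot p (X i) + 1 * dot q (X i) := by
        conv_lhs => rw [hvpq]
        rw [dot_lin]
      rw [h3, hqX i]
      ring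
  have hxz : dot x z = 0 := by rw [dot_comm']; exact hA.zx
  have hyz : dot y z = 0 := by rw [dot_comm']; exact hA.zy
  -- `x` is in the span of `X`
  have hx0 : ∀ w, (∀ i, dot w (X i) = 0) → dot x w = 0 := by
    obtain ⟨p, q, hv, hpw, _, _, hn1, hK, _⟩ := hval x hxz
    have h1 : nrm q = 0 := by
      have h2 := hA.k4
      rw [hK] at h2
      rw [hA.nx] at hn1
      have hq0 : 0 ≤ nrm q := Finset.sum_nonneg fun i _ => sq_nonneg _
      linarith
    have h3 := nrm_zero_iff q h1
    intro w hw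
    rw [hv, dot_lin, hpw w hw, h3]
    simp [dot]
  have hy0 : ∀ i, dot y (X i) = 0 := by
    obtain ⟨p, q, hv, _, hqX, _, hn1, hK, hpX⟩ := hval y hyz
    have h1 : nrm p = 0 := by
      have h2 := hA.k1
      rw [hK] at h2
      rw [hA.ny] at hn1
      linarith
    have h3 := nrm_zero_iff p h1
    intro i
    rw [← hpX i, h3]
    simp [dot]
  -- completion `Y` of `z, X, y`
  have hdx : dot x x = 1 := by rw [← nrm_dot, hA.nx]
  have hdy : dot y y = 1 := by rw [← nrm_dot, hA.ny]
  obtain ⟨Y0, hY0, hY0'⟩ := ext_on (n := n) (b := l') (ι := Option (Option (Fin (k' + 1))))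
    (fun o => match o with
      | none => z
      | some none => y
      | some (some i) => X i) (by
      intro i j
      rcases i with _ | _ | i <;> rcases j with _ | _ | j
      · simpa using hdz
      · simpa using hA.zy
      · simpa [dot_comm' z (X j)] using hXz j
      · simpa using hyz
      · simpa using hdy
      · simpa using hy0 j
      · simpa using hXz i
      · simpa [dot_comm' (X i) y] using hy0 i
      · simpa using hX i j) (by simp; omega)
  have hY0z : ∀ j, dot (Y0 j) z = 0 := fun j => by rw [dot_comm']; exact hY0' none j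
  have hY0y : ∀ j, dot (Y0 j) y = 0 := fun j => by rw [dot_comm']; exact hY0' (some none) j
  have hY0X : ∀ i j, dot (X i) (Y0 j) = 0 := fun i j => hY0' (some (some i)) j
  let Y : Fin (l' + 1) → Fin n → ℝ := Fin.cons y Y0
  have hYon : ON Y := by
    intro i j
    refine Fin.cases ?_ (fun i => ?_) i <;> refine Fin.cases ?_ (fun j => ?_) j
    · simpa [Y] using hdy
    · have := hY0y j
      rw [dot_comm'] at this
      simpa [Y, (Fin.succ_ne_zero j).symm] using this
    · simpa [Y] using hY0y i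
    · have := hY0 i j
      simpa [Y, Fin.succ_inj] using this
  have hYz : ∀ j, dot (Y j) z = 0 := by
    intro j
    refine Fin.cases ?_ (fun j => ?_) j
    · simpa [Y] using hyz
    · simpa [Y] using hY0z j
  have hXY : ∀ i j, dot (X i) (Y j) = 0 := by
    intro i j
    refine Fin.cases ?_ (fun j => ?_) j
    · rw [dot_comm']
      simpa [Y] using hy0 i
    · simpa [Y] using hY0X i j
  -- completion `X'` of `z, Y, x`
  have hxY : ∀ j, dot x (Y j) = 0 := fun j => hx0 (Y j) fun i => by rw [dot_comm']; exact hXY i j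
  obtain ⟨X0, hX0, hX0'⟩ := ext_on (n := n) (b := k') (ι := Option (Option (Fin (l' + 1))))
    (fun o => match o with
      | none => z
      | some none => x
      | some (some i) => Y i) (by
      intro i j
      rcases i with _ | _ | i <;> rcases j with _ | _ | j
      · simpa using hdz
      · simpa using hA.zx
      · simpa [dot_comm' z (Y j)] using hYz j
      · simpa using hxz
      · simpa using hdx
      · simpa using hxY j
      · simpa using hYz i
      · simpa [dot_comm' (Y i) x] using hxY i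
      · simpa using hYon i j) (by simp; omega)
  have hX0z : ∀ j, dot (X0 j) z = 0 := fun j => by rw [dot_comm']; exact hX0' none j
  have hX0x : ∀ j, dot (X0 j) x = 0 := fun j => by rw [dot_comm']; exact hX0' (some none) j
  have hX0Y : ∀ i j, dot (X0 i) (Y j) = 0 := fun i j => by rw [dot_comm']; exact hX0' (some (some j)) i
  let X' : Fin (k' + 1) → Fin n → ℝ := Fin.cons x X0
  have hXon : ON X' := by
    intro i j
    refine Fin.cases ?_ (fun i => ?_) i <;> refine Fin.cases ?_ (fun j => ?_) j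
    · simpa [X'] using hdx
    · have := hX0x j
      rw [dot_comm'] at this
      simpa [X', (Fin.succ_ne_zero j).symm] using this
    · simpa [X'] using hX0x i
    · have := hX0 i j
      simpa [X', Fin.succ_inj] using this
  have hXz' : ∀ j, dot (X' j) z = 0 := by
    intro j
    refine Fin.cases ?_ (fun j => ?_) j
    · simpa [X'] using hxz
    · simpa [X'] using hX0z j
  have hXY' : ∀ i j, dot (X' i) (Y j) = 0 := by
    intro i j
    refine Fin.cases ?_ (fun i => ?_) i
    · simpa [X'] using hxY j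
    · simpa [X'] using hX0Y i j
  have hS1 := hSA2 n (k' + 1) (l' + 1) z X Y hn hz hX hYon hXz hYz hXY (Q R) hQ
  have hS2 := hSA2 n (k' + 1) (l' + 1) z X' Y hn hz hXon hYon hXz' hYz hXY' (Q R) hQ
  -- the same trace
  have htr : ∑ i, K2 (Q R) z (X i) = ∑ i, K2 (Q R) z (X' i) := by
    have h1 := hS1.2.2 z z
    have h2 := hS2.2.2 z z
    have h3 : ∀ i, K2 (Q R) z (X i) = R4 (Q R) z (X i) z (X i) := fun i => hK2 _ _ _
    have h4 : ∀ i, K2 (Q R) z (X' i) = R4 (Q R) z (X' i) z (X' i) := fun i => hK2 _ _ _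
    simp only [h3, h4]
    linarith
  have helk : elk (k' + 1) (Q R) z X = elk (k' + 1) (Q R) z X' := by
    simp only [elk, htr]
  -- all flags
  have hAc : ∀ i j, Ac R z (X' i) (Y j) := by
    intro i j
    obtain ⟨p, q, hv, hpw, hqX, hqz, hn1, hK, _⟩ := hval (X' i) (hXz' i)
    have hqY : ∀ j, dot q (Y j) = 0 := by
      intro j
      have h1 : dot (X' i) (Y j) = 1 * dot p (Y j) + 1 * dot q (Y j) := by
        conv_lhs => rw [hv]
        rw [dot_lin]
      rw [hXY' i j, hpw (Y j) (fun a => by rw [dot_comm']; exact hXY a j)] at h1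
      linarith
    have hq0 : nrm q = 0 := by
      rw [hS1.2.1 q, hqz]
      simp [hqX, hqY]
    have h1x : nrm (X' i) = 1 := by rw [nrm_dot, hXon i i, if_pos rfl]
    have h1y : nrm (Y j) = 1 := by rw [nrm_dot, hYon j j, if_pos rfl]
    refine ⟨hFG, hz, h1x, h1y, ?_, ?_, hXY' i j, ?_, ?_⟩
    · rw [dot_comm']; exact hXz' i
    · rw [dot_comm']; exact hYz j
    · rw [hK]
      linarith
    · have hE := hE1 (Y j) (hYz j) (fun i => by rw [dot_comm']; exact hXY i j)
      rw [hK2, hE.2, ← nrm_dot, h1y]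
      ring
  have hsum : ∑ i, ∑ j, Dz R z (X' i) (Y j) ≤ 0 := by
    have h1 := hS2.1
    rw [← helk] at h1
    have h2 : ∑ i, ∑ j, Dz R z (X' i) (Y j) = elk (k' + 1) (Q R) z X := by
      rw [h1]
      rfl
    rw [h2]
    exact hle
  have hnn : ∀ i j, 0 ≤ Dz R z (X' i) (Y j) := fun i j => (hEQF n R z (X' i) (Y j) (hAc i j)).1
  have h0 : ∑ i, ∑ j, Dz R z (X' i) (Y j) = 0 :=
    le_antisymm hsum (Finset.sum_nonneg fun i _ => Finset.sum_nonneg fun j _ => hnn i j)
  have h1 := (Finset.sum_eq_zero_iff_of_nonneg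
    (fun i _ => Finset.sum_nonneg fun j _ => hnn i j)).1 h0 0 (Finset.mem_univ _)
  have h2 := (Finset.sum_eq_zero_iff_of_nonneg (fun j _ => hnn 0 j)).1 h1 0 (Finset.mem_univ _)
  simpa [X', Y] using h2

theorem g_SA (hSA1 : G_SA1) (hSA2 : G_SA2) (hSA3 : G_SA3) (hEQF : G_EQF) (hLN : Goal_LN) (hR4 : G_R4T)
    (hFG1 : G_FG1) (hCL : Goal_CL) : G_SA := by
  intro n hn R k z X hFG hlam hz hk hkn hcon h0 hhh
  obtain ⟨m, hm, hX, hXz, hE4, hE1⟩ := hSA1 n hn R k z X hFG hlam hz hk hkn hcon h0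
  by_contra hneg
  push Not at hneg
  obtain ⟨k', rfl⟩ : ∃ k', k = k' + 1 := ⟨k - 1, by omega⟩
  obtain ⟨l', hl'⟩ : ∃ l', 1 + (k' + 1) + (l' + 1) = n := ⟨n - k' - 3, by omega⟩
  have hmi : 0 < m⁻¹ := inv_pos.2 hm
  have hFG' : FG (m⁻¹ • R) := (hFG1 n).2.1 m⁻¹ R hmi.le hFG
  have hE4' : ∀ i, Eg (m⁻¹ • R) z 4 (X i) := by
    intro i
    have := Eg_smul hR4 m⁻¹ (hE4 i)
    rwa [show m⁻¹ * (4 * m) = 4 by field_simp] at this
  have hE1' : ∀ q, dot q z = 0 → (∀ i, dot q (X i) = 0) → Eg (m⁻¹ • R) z 1 q := by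
    intro q hq1 hq2
    have := Eg_smul hR4 m⁻¹ (hE1 q hq1 hq2)
    rwa [show m⁻¹ * m = 1 by field_simp] at this
  have hle : elk (k' + 1) (Q (m⁻¹ • R)) z X ≤ 0 := by
    rw [Q_smul, elk_smul hLN]
    exact mul_nonpos_of_nonneg_of_nonpos (sq_nonneg _) hneg
  have hD := key hSA2 hEQF hR4 hCL (m⁻¹ • R) k' l' z X hl' hFG' hz hX hXz hE4' hE1' hle
  -- a basis of the complement
  have hdz : dot z z = 1 := by rw [← nrm_dot, hz]
  obtain ⟨Y, hY, hY'⟩ := ext_on (n := n) (b := l' + 1) (ι := Option (Fin (k' + 1)))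
    (fun o => match o with
      | none => z
      | some i => X i) (by
      intro i j
      rcases i with _ | i <;> rcases j with _ | j
      · simpa using hdz
      · simpa [dot_comm' z (X j)] using hXz j
      · simpa using hXz i
      · simpa using hX i j) (by simp; omega)
  have hYz : ∀ j, dot (Y j) z = 0 := fun j => by rw [dot_comm']; exact hY' none j
  have hXY : ∀ i j, dot (X i) (Y j) = 0 := fun i j => hY' (some i) j
  have h1 := hSA3 n hn (m⁻¹ • R) (k' + 1) (l' + 1) z X Y hl' (by omega) (by omega) hFG' hz hX hY hXz hYz hXY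
    hE4' (fun j => hE1' (Y j) (hYz j) fun i => by rw [dot_comm']; exact hXY i j) hD
  rw [hh_smul hLN] at h1
  rcases mul_eq_zero.1 h1 with h2 | h2
  · exact (pow_ne_zero 2 hmi.ne') h2
  · exact hhh h2

end Pool.Agent.Helper95.FLG
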