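import Pool.Agent.Helper47.FLG.Pde

/-!
# Project FLG, packet HSQ: evolution of `|h|²/λ`
-/

set_option autoImplicit false

namespace Pool.Agent.Helper47.FLG

open Finset Pool.Agent.Helper47.RFn

namespace HSQaux

/-- trace of the reaction term -/
theorem ric_Q {N : ℕ} (R : T4 N) (hR : IsCurv R) (a b : Fin N) :
    ∑ c, Q R a c b c = ∑ e, ∑ f, R a e b f * Ric R e f := by
  set S1 : ℝ := ∑ c, ∑ e, ∑ f, R a e c f * R b e c f with hS1
  set S2 : ℝ := ∑ c, ∑ e, ∑ f, R a e c f * R c e b f with hS2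
  have h1 : ∑ c, Q R a c b c = S1 - 2 * S2 + ∑ c, ∑ e, ∑ f, R a e b f * R c e c f := by
    rw [hS1, hS2, Finset.mul_sum, ← Finset.sum_sub_distrib, ← Finset.sum_add_distrib]
    refine Finset.sum_congr rfl fun c _ => ?_
    simp only [Q, BB]
    ring
  have h2 : ∑ c, ∑ e, ∑ f, R a e b f * R c e c f = ∑ e, ∑ f, R a e b f * Ric R e f := by
    rw [Finset.sum_comm]
    refine Finset.sum_congr rfl fun e _ => ?_
    rw [Finset.sum_comm]
    refine Finset.sum_congr rfl fun f _ => ?_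
    rw [← Finset.mul_sum]
    congr 1
    unfold Ric
    refine Finset.sum_congr rfl fun c _ => ?_
    rw [hR.a12 c e c f, hR.a34 e c c f]
    ring
  have h3 : S2 = ∑ c, ∑ e, ∑ f, R a e c f * R b c e f := by
    have e1 : S2 = ∑ f, ∑ e, ∑ c, R a e c f * R c e b f := by
      rw [hS2]
      rw [Finset.sum_comm]
      have : ∀ e, ∑ c, ∑ f, R a e c f * R c e b f = ∑ f, ∑ c, R a e c f * R c e b f :=
        fun e => Finset.sum_comm
      rw [Finset.sum_congr rfl fun e _ => this e]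
      exact Finset.sum_comm
    rw [e1]
    refine Finset.sum_congr rfl fun c _ => Finset.sum_congr rfl fun e _ =>
      Finset.sum_congr rfl fun f _ => ?_
    rw [hR.a34 a e f c, hR.pair f e b c, hR.a34 b c f e]
    ring
  have h4 : S2 = S1 - ∑ c, ∑ e, ∑ f, R a e c f * R b c e f := by
    rw [hS2, hS1, ← Finset.sum_sub_distrib]
    refine Finset.sum_congr rfl fun c _ => ?_
    rw [← Finset.sum_sub_distrib]
    refine Finset.sum_congr rfl fun e _ => ?_
    rw [← Finset.sum_sub_distrib]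
    refine Finset.sum_congr rfl fun f _ => ?_
    have hb := hR.bian c f e b
    have k1 : R b e c f = - R c f e b := by rw [hR.pair b e c f, hR.a34 c f b e]
    have k2 : R b c e f = R f e c b := by
      rw [hR.a34 b c e f, hR.pair b c f e, hR.a34 f e b c]
      ring
    have k3 : R c e b f = R e c f b := by
      rw [hR.a12 c e b f, hR.a34 e c b f]
      ring
    rw [k1, k2, k3]
    have k4 : R e c f b = - R c f e b - R f e c b := by linarith
    rw [k4]
    ring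
  rw [h1, h2]
  have h5 : S1 - 2 * S2 = 0 := by linarith
  rw [h5, zero_add]

theorem cs1 {α : Type*} [Fintype α] (f g : α → ℝ) :
    (∑ a, f a * g a) ^ 2 ≤ (∑ a, f a ^ 2) * ∑ a, g a ^ 2 :=
  Finset.sum_mul_sq_le_sq_mul_sq _ _ _

theorem cs2 {α β : Type*} [Fintype α] [Fintype β] (f g : α → β → ℝ) :
    (∑ a, ∑ b, f a b * g a b) ^ 2 ≤ (∑ a, ∑ b, f a b ^ 2) * ∑ a, ∑ b, g a b ^ 2 := by
  have h := cs1 (fun p : α × β => f p.1 p.2) (fun p => g p.1 p.2)
  simpa only [Fintype.sum_prod_type] using h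

/-- a quartic contraction -/
theorem quad {N : ℕ} (R : T4 N) (h : Fin N → Fin N → ℝ) (M : ℝ) (hM : ∀ a b c d, |R a b c d| ≤ M) :
    ∑ a, ∑ b, h a b * ∑ e, ∑ f, R a e b f * h e f ≤ M * ((N : ℝ) ^ 2 * ∑ a, ∑ b, h a b ^ 2) := by
  rcases Nat.eq_zero_or_pos N with h0 | hpos
  · subst h0
    simp
  have hM0 : 0 ≤ M := (abs_nonneg _).trans (hM ⟨0, hpos⟩ ⟨0, hpos⟩ ⟨0, hpos⟩ ⟨0, hpos⟩)
  have h1 : ∑ a, ∑ b, h a b * ∑ e, ∑ f, R a e b f * h e f
      ≤ ∑ a, ∑ b, |h a b| * (M * ∑ e, ∑ f, |h e f|) := by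
    refine Finset.sum_le_sum fun a _ => Finset.sum_le_sum fun b _ => ?_
    refine (le_abs_self _).trans ?_
    rw [abs_mul]
    refine mul_le_mul_of_nonneg_left ?_ (abs_nonneg _)
    refine (Finset.abs_sum_le_sum_abs _ _).trans ?_
    rw [Finset.mul_sum]
    refine Finset.sum_le_sum fun e _ => ?_
    refine (Finset.abs_sum_le_sum_abs _ _).trans ?_
    rw [Finset.mul_sum]
    refine Finset.sum_le_sum fun f _ => ?_
    rw [abs_mul]
    exact mul_le_mul_of_nonneg_right (hM _ _ _ _) (abs_nonneg _)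
  have h2 : ∑ a, ∑ b, |h a b| * (M * ∑ e, ∑ f, |h e f|) = M * (∑ a, ∑ b, |h a b|) ^ 2 := by
    simp only [← Finset.sum_mul]
    ring
  have h3 : (∑ a, ∑ b, |h a b|) ^ 2 ≤ (N : ℝ) ^ 2 * ∑ a, ∑ b, h a b ^ 2 := by
    have h4 := cs2 (fun _ _ : Fin N => (1 : ℝ)) (fun a b => |h a b|)
    simp only [one_mul, one_pow, Finset.sum_const, Finset.card_univ, Fintype.card_fin, nsmul_eq_mul,
      mul_one, sq_abs] at h4
    rw [sq (N : ℝ)]
    exact h4
  rw [h2] at h1
  exact h1.trans (mul_le_mul_of_nonneg_left h3 hM0)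

/-- the algebra of the quotient rule -/
theorem quot {N : ℕ} (h Hh : Fin N → Fin N → ℝ) (dh : Fin N → Fin N → Fin N → ℝ) (lc yc : Fin N → ℝ)
    (l u yv Y Hl Hu : ℝ) (hu : u = ∑ a, ∑ b, h a b ^ 2) (hyl : u = yv * l)
    (h1 : Hu = yv * Hl + l * Y - 2 * ∑ c, yc c * lc c)
    (h2 : ∀ c, 2 * ∑ a, ∑ b, h a b * dh c a b = yv * lc c + l * yc c)
    (h3 : Hu = 2 * (∑ a, ∑ b, h a b * Hh a b) - 2 * ∑ c, ∑ a, ∑ b, dh c a b ^ 2) :
    l ^ 3 * Y = 2 * l ^ 2 * (∑ a, ∑ b, h a b * Hh a b) - u * l * Hl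
      - 2 * ∑ c, ∑ a, ∑ b, (l * dh c a b - h a b * lc c) ^ 2 := by
  have e1 : ∑ c, ∑ a, ∑ b, (l * dh c a b - h a b * lc c) ^ 2
      = l ^ 2 * (∑ c, ∑ a, ∑ b, dh c a b ^ 2) - 2 * l * (∑ c, lc c * ∑ a, ∑ b, h a b * dh c a b)
        + u * ∑ c, lc c ^ 2 := by
    rw [hu, Finset.mul_sum, Finset.mul_sum, Finset.mul_sum, ← Finset.sum_sub_distrib,
      ← Finset.sum_add_distrib]
    refine Finset.sum_congr rfl fun c _ => ?_
    simp only [Finset.mul_sum, Finset.sum_mul]
    rw [← Finset.sum_sub_distrib, ← Finset.sum_add_distrib]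
    refine Finset.sum_congr rfl fun a _ => ?_
    rw [← Finset.sum_sub_distrib, ← Finset.sum_add_distrib]
    refine Finset.sum_congr rfl fun b _ => ?_
    ring
  set N3 : ℝ := ∑ c, ∑ a, ∑ b, dh c a b ^ 2 with hN3
  set G : ℝ := ∑ c, lc c ^ 2 with hG
  have e2 : 2 * (∑ c, lc c * ∑ a, ∑ b, h a b * dh c a b) = yv * G + l * ∑ c, yc c * lc c := by
    rw [hG, Finset.mul_sum, Finset.mul_sum, Finset.mul_sum, ← Finset.sum_add_distrib]
    refine Finset.sum_congr rfl fun c _ => ?_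
    have := h2 c
    linear_combination (lc c) * this
  rw [e1]
  set X : ℝ := ∑ c, lc c * ∑ a, ∑ b, h a b * dh c a b with hX
  set yl : ℝ := ∑ c, yc c * lc c with hyl'
  set S : ℝ := ∑ a, ∑ b, h a b * Hh a b with hS
  have e3 : l * Y = 2 * S - 2 * N3 - yv * Hl + 2 * yl := by linarith
  have e4 : l ^ 3 * Y = l ^ 2 * (2 * S - 2 * N3 - yv * Hl + 2 * yl) := by rw [← e3]; ring
  rw [e4, hyl]
  linear_combination (-2 * l) * e2

/-- the contracted gradient term -/
theorem grad {N : ℕ} (Z : Fin N → Fin N → Fin N → ℝ) (v : Fin N → ℝ) (κ : ℝ) (hκ : 0 ≤ κ)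
    (h : κ * ∑ b, v b ^ 2 ≤ ∑ b, (∑ a, Z a a b) * v b) :
    κ ^ 2 * ∑ b, v b ^ 2 ≤ (N : ℝ) * ∑ c, ∑ a, ∑ b, Z c a b ^ 2 := by
  set G : ℝ := ∑ b, v b ^ 2 with hG
  have hG0 : 0 ≤ G := Finset.sum_nonneg fun b _ => sq_nonneg _
  set W : ℝ := ∑ c, ∑ a, ∑ b, Z c a b ^ 2 with hW
  have hW0 : 0 ≤ W := Finset.sum_nonneg fun c _ => Finset.sum_nonneg fun a _ =>
    Finset.sum_nonneg fun b _ => sq_nonneg _
  have h1 : ∑ b, (∑ a, Z a a b) ^ 2 ≤ (N : ℝ) * W := by
    have k1 : ∀ b, (∑ a, Z a a b) ^ 2 ≤ (N : ℝ) * ∑ a, Z a a b ^ 2 := by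
      intro b
      have := cs1 (fun _ : Fin N => (1 : ℝ)) (fun a => Z a a b)
      simpa only [one_mul, one_pow, Finset.sum_const, Finset.card_univ, Fintype.card_fin,
        nsmul_eq_mul, mul_one] using this
    refine (Finset.sum_le_sum fun b _ => k1 b).trans ?_
    rw [← Finset.mul_sum]
    refine mul_le_mul_of_nonneg_left ?_ (Nat.cast_nonneg _)
    rw [Finset.sum_comm, hW]
    refine Finset.sum_le_sum fun c _ => ?_
    exact Finset.single_le_sum (f := fun a => ∑ b, Z c a b ^ 2)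
      (fun a _ => Finset.sum_nonneg fun b _ => sq_nonneg _) (Finset.mem_univ c)
  have h2 : (κ * G) ^ 2 ≤ ((N : ℝ) * W) * G := by
    have k1 := cs1 (fun b => ∑ a, Z a a b) v
    have k2 : (κ * G) ^ 2 ≤ (∑ b, (∑ a, Z a a b) * v b) ^ 2 :=
      pow_le_pow_left₀ (mul_nonneg hκ hG0) h 2
    exact k2.trans (k1.trans (mul_le_mul_of_nonneg_right h1 hG0))
  rcases hG0.eq_or_lt with h0 | h0
  · rw [← h0, mul_zero]
    exact mul_nonneg (Nat.cast_nonneg _) hW0
  · have h3 : (κ ^ 2 * G) * G ≤ ((N : ℝ) * W) * G := by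
      have : (κ ^ 2 * G) * G = (κ * G) ^ 2 := by ring
      rw [this]
      exact h2
    exact le_of_mul_le_mul_right h3 h0

theorem num1 (n l G X κ : ℝ) (hκ : κ = (n - 2) / 32) (h : X ≤ (n / 2 - (n - 2) / 32) * l * G) :
    X - l * G ≤ ((n - 2) / 2 - κ) * l * G := by
  subst hκ
  linarith

theorem num2 (n l G X κ : ℝ) (h : X ≤ ((n - 2) / 2 - κ) * l * G) :
    κ * l * G ≤ (n - 2) / 2 * l * G - X := by
  linarith

theorem num3 (n m l u X : ℝ) (h : X ≤ (n ^ 3 * l) * (m ^ 2 * u)) :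
    2 * X + 2 * l * u ≤ (2 * (n ^ 3 * m ^ 2) + 2) * l * u := by
  linarith

theorem num4 (C1 c u g Y : ℝ) (hC1 : 0 < C1) (hc : 0 < c) (hu : 0 ≤ u) (hg : 0 ≤ g)
    (h : Y ≤ 2 * C1 * u - c * g) : (2 * C1 + 1 / c) * Y ≤ (2 * C1 + 1 / c) ^ 2 * u - g := by
  have hc1 : 0 < 1 / c := by positivity
  set CC : ℝ := 2 * C1 + 1 / c with hCC
  have hCC0 : 0 < CC := by positivity
  have f3 : CC * Y ≤ CC * (2 * C1 * u - c * g) := mul_le_mul_of_nonneg_left h hCC0.le
  have f4 : CC * (2 * C1) ≤ CC ^ 2 := by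
    have : 2 * C1 ≤ CC := by rw [hCC]; linarith
    nlinarith
  have f5 : 1 ≤ CC * c := by
    have : CC * c = 2 * C1 * c + 1 := by rw [hCC]; field_simp
    rw [this]
    have : 0 < 2 * C1 * c := by positivity
    linarith
  have f6 : CC * (2 * C1) * u ≤ CC ^ 2 * u := mul_le_mul_of_nonneg_right f4 hu
  have f7 : 1 * g ≤ CC * c * g := mul_le_mul_of_nonneg_right f5 hg
  linarith

theorem num5 (C1 c l u G S W Y Hl : ℝ) (hl : 0 < l) (hu : 0 ≤ u) (hH : 0 ≤ Hl)
    (key : l ^ 3 * Y = 2 * l ^ 2 * S - u * l * Hl - 2 * W) (hS : S ≤ C1 * l * u)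
    (hW : c * l ^ 2 * G ≤ 2 * W) : Y ≤ 2 * C1 * u - c * (G / l) := by
  have f1 : l ^ 3 * Y ≤ l ^ 3 * (2 * C1 * u - c * (G / l)) := by
    have k1 : l ^ 3 * (2 * C1 * u - c * (G / l)) = 2 * l ^ 2 * (C1 * l * u) - c * l ^ 2 * G := by
      field_simp
    rw [k1, key]
    have k2 : 2 * l ^ 2 * S ≤ 2 * l ^ 2 * (C1 * l * u) :=
      mul_le_mul_of_nonneg_left hS (by positivity)
    have k3 : 0 ≤ u * l * Hl := by positivity
    linarith
  exact le_of_mul_le_mul_left f1 (by positivity)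

variable {n : ℕ} {T : ℝ} (F : FB n T)

theorem hop_sum {α : Type*} (s : Finset α) (f : α → F.B) : F.Hop (∑ i ∈ s, f i) = ∑ i ∈ s, F.Hop (f i) := by
  simp only [FB.Hop, FB.Lap, map_sum, Finset.sum_sub_distrib]
  rw [Finset.sum_comm]

end HSQaux

open HSQaux

theorem g_HSQ (hEVS : RFn.Goal_EVS) (hEVM : RFn.Goal_EVM) (hRIC : RFn.Goal_RIC) (hPRD : RFn.Goal_PRD)
    (_hBIA : RFn.Goal_BIA) (_hEVG : G_EVG) (hFG2 : G_FG2) (hRP1 : RFn.Goal_RP1) (hRP2 : RFn.Goal_RP2) :
    G_HSQ := by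
  intro n hn
  have hn4 : (4 : ℝ) ≤ n := by exact_mod_cast hn
  set m : ℝ := (n : ℝ) + 1 with hm
  set C1 : ℝ := 2 * ((n : ℝ) ^ 3 * m ^ 2) + 2 with hC1
  have hC10 : 0 < C1 := by positivity
  set κ : ℝ := ((n : ℝ) - 2) / 32 with hκ
  have hκ0 : 0 < κ := by rw [hκ]; linarith
  set c : ℝ := 2 * κ ^ 2 / m with hc
  have hm0 : 0 < m := by positivity
  have hc0 : 0 < c := by positivity
  refine ⟨2 * C1 + 1 / c, by positivity, fun T F hF hRF hlam hFG => ⟨?_, ?_⟩⟩
  · -- existence of `y`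
    obtain ⟨g, hg⟩ := hF.comp (fun x => x⁻¹) (Set.Ioi 0) isOpen_Ioi
      (fun x hx => (contDiffAt_inv ℝ (ne_of_gt hx)).contDiffWithinAt) F.lam hlam
    refine ⟨hB F * g, fun z t => ?_⟩
    rw [map_mul, hg, div_eq_mul_inv]
  intro y hy z t
  obtain ⟨hS1, -, -, -, -⟩ := hEVS n T F (by omega) hF hRF
  obtain ⟨hRs, hRnu, -, hdiv, -, hHor, hQR⟩ := hRIC n T F hF
  obtain ⟨hPA, hPB⟩ := hPRD n T F
  obtain ⟨hPH, -, -, -, hPf, -, hPs, hPnu, hPP, hPtr⟩ := hPB hF.toBase
  set R : T4 (n + 1) := F.rv z t with hR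
  set ν : Ix n → ℝ := F.nv z t with hν
  have hνν : ∑ i, ν i ^ 2 = 1 := by
    have h := congrArg (F.ev z t) hF.nunu
    simpa [map_sum, map_pow, hν, FB.nv] using h
  obtain ⟨ι, hι⟩ := hRP1 n ν hνν
  have hHR : Hor ν R := hHor z t
  obtain ⟨hcr, -, -, -, hlr, -, -, -, hrq, hsq, -⟩ := hRP2 n ν ι R hι hHR
  have hfg : FG (pull ι R) := hFG z t ι hι
  obtain ⟨-, hbd, -, -, -, -, hup, -⟩ := hFG2 n hn (pull ι R) hfg
  -- evaluations
  have hRic : ∀ a c, F.ev z t (F.Ric a c) = Ric R a c := by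
    intro a c
    simp only [FB.Ric, Ric, hR, FB.rv, map_sum]
  have hlamev : F.ev z t F.lam = lam (pull ι R) := by
    rw [hlr]
    unfold FB.lam
    rw [map_smul, map_sum]
    simp only [hRic, smul_eq_mul]
    ring
  have hPev : ∀ a b, F.ev z t (F.P a b) = Pm ν a b := by
    intro a b
    simp only [FB.P, FB.dl, Pm, hν, FB.nv, map_sub, map_mul]
    split_ifs <;> simp
  set l : ℝ := F.ev z t F.lam with hl
  have hl0 : 0 < l := hlam z t
  set h : Ix n → Ix n → ℝ := fun a b => F.ev z t (F.Ric0 a b) with hh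
  set dh : Ix n → Ix n → Ix n → ℝ := fun c a b => F.ev z t (F.H c (F.Ric0 a b)) with hdh
  set Hh : Ix n → Ix n → ℝ := fun a b => F.ev z t (F.Hop (F.Ric0 a b)) with hHh
  set lc : Ix n → ℝ := fun c => F.ev z t (F.H c F.lam) with hlc
  set yc : Ix n → ℝ := fun c => F.ev z t (F.H c y) with hyc
  set u : ℝ := F.ev z t (hB F) with hu
  have hu1 : u = ∑ a, ∑ b, h a b ^ 2 := by
    simp only [hu, hB, map_sum, map_pow, hh]
  have hu0 : 0 ≤ u := by
    rw [hu1]
    exact Finset.sum_nonneg fun a _ => Finset.sum_nonneg fun b _ => sq_nonneg _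
  have hlrr : l * n = ∑ a, Ric R a a := by
    rw [hlamev, hlr]
    field_simp
  have hh1 : ∀ a b, h a b = Ric R a b - l * Pm ν a b := by
    intro a b
    simp only [hh, FB.Ric0, map_sub, map_mul, hRic, hPev, hl]
  -- `y lam = |h|²`
  have hyB : y * F.lam = hB F := by
    refine hF.ext _ _ fun z' t' => ?_
    rw [map_mul, hy z' t', div_mul_cancel₀ _ (ne_of_gt (hlam z' t'))]
  have hyl : u = F.ev z t y * l := by
    have := congrArg (F.ev z t) hyB
    rw [map_mul] at this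
    exact this.symm
  have q1 : F.ev z t (F.Hop (hB F)) = F.ev z t y * F.ev z t (F.Hop F.lam) + l * F.ev z t (F.Hop y)
      - 2 * ∑ c, yc c * lc c := by
    rw [← hyB, (hPA y F.lam).1]
    simp only [map_sub, map_add, map_mul, map_smul, FB.gg, map_sum, smul_eq_mul, hyc, hlc, hl]
  have q2 : ∀ c, 2 * ∑ a, ∑ b, h a b * dh c a b = F.ev z t y * lc c + l * yc c := by
    intro c
    have k1 : F.ev z t (F.H c (hB F)) = F.ev z t y * lc c + l * yc c := by
      rw [← hyB, Derivation.leibniz]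
      simp only [smul_eq_mul, map_add, map_mul, hyc, hlc, hl]
    rw [← k1]
    simp only [hB, map_sum, Finset.mul_sum]
    refine Finset.sum_congr rfl fun a _ => Finset.sum_congr rfl fun b _ => ?_
    rw [sq, Derivation.leibniz]
    simp only [smul_eq_mul, map_add, map_mul, hh, hdh]
    ring
  have q3 : F.ev z t (F.Hop (hB F)) = 2 * (∑ a, ∑ b, h a b * Hh a b)
      - 2 * ∑ c, ∑ a, ∑ b, dh c a b ^ 2 := by
    have k1 : F.ev z t (F.Hop (hB F)) = ∑ a, ∑ b, (2 * (h a b * Hh a b) - 2 * ∑ c, dh c a b ^ 2) := by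
      unfold hB
      rw [hop_sum, map_sum]
      refine Finset.sum_congr rfl fun a _ => ?_
      rw [hop_sum, map_sum]
      refine Finset.sum_congr rfl fun b _ => ?_
      rw [(hPA (F.Ric0 a b) (F.Ric0 a b)).2.2.2.2]
      simp only [map_sub, map_smul, map_mul, FB.gg, map_sum, smul_eq_mul, hh, hHh, hdh, sq]
    rw [k1]
    simp only [Finset.sum_sub_distrib, ← Finset.mul_sum]
    congr 2
    have k2 : ∀ a : Ix n, ∑ b, ∑ c, dh c a b ^ 2 = ∑ c, ∑ b, dh c a b ^ 2 := fun a => Finset.sum_comm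
    rw [Finset.sum_congr rfl fun a _ => k2 a]
    exact Finset.sum_comm
  have key := quot h Hh dh lc yc l u (F.ev z t y) (F.ev z t (F.Hop y)) (F.ev z t (F.Hop F.lam))
    (F.ev z t (F.Hop (hB F))) hu1 hyl q1 q2 q3
  -- the traces
  have hnuR : ∀ a, ∑ b, Ric R a b * ν b = 0 := by
    intro a
    have k1 := congrArg (F.ev z t) (hRnu a)
    simpa only [map_sum, map_mul, hRic, map_zero, hν, FB.nv] using k1
  have hRsym : ∀ a b, Ric R a b = Ric R b a := by
    intro a b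
    have k1 := congrArg (F.ev z t) (hRs a b)
    simpa only [hRic] using k1
  have hPPr : ∀ a c, ∑ b, Pm ν a b * Pm ν b c = Pm ν a c := by
    intro a c
    have k1 := congrArg (F.ev z t) (hPP a c)
    simpa only [map_sum, map_mul, hPev] using k1
  have hPsr : ∀ a b, Pm ν a b = Pm ν b a := by
    intro a b
    have k1 := congrArg (F.ev z t) (hPs a b)
    simpa only [hPev] using k1
  have hPtrr : ∑ a, Pm ν a a = n := by
    have k1 := congrArg (F.ev z t) hPtr
    rw [map_sum] at k1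
    simp only [hPev] at k1
    rw [k1]
    exact (F.ev z t).commutes _
  -- contraction with `P`
  have hPR : ∀ a, ∑ b, Ric R a b * Pm ν a b = Ric R a a := by
    intro a
    have k1 : ∑ b, Ric R a b * Pm ν a b = (∑ b, Ric R a b * (if a = b then 1 else 0))
        - ν a * ∑ b, Ric R a b * ν b := by
      rw [Finset.mul_sum, ← Finset.sum_sub_distrib]
      refine Finset.sum_congr rfl fun b _ => ?_
      simp only [Pm]
      ring
    rw [k1, hnuR, mul_zero, sub_zero]
    simp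
  have htf : ∑ a, ∑ b, h a b * Pm ν a b = 0 := by
    have k1 : ∑ a, ∑ b, h a b * Pm ν a b = (∑ a, ∑ b, Ric R a b * Pm ν a b)
        - l * ∑ a, ∑ b, Pm ν a b * Pm ν b a := by
      rw [Finset.mul_sum, ← Finset.sum_sub_distrib]
      refine Finset.sum_congr rfl fun a _ => ?_
      rw [Finset.mul_sum, ← Finset.sum_sub_distrib]
      refine Finset.sum_congr rfl fun b _ => ?_
      rw [hh1, hPsr b a]
      ring
    rw [k1, Finset.sum_congr rfl fun a _ => hPR a, Finset.sum_congr rfl fun a _ => hPPr a a, hPtrr,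
      ← hlrr]
    ring
  -- evolution of `h`
  have hHh1 : ∀ a b, Hh a b = 2 * (∑ e, ∑ f, R a e b f * Ric R e f)
      - F.ev z t (F.Hop F.lam) * Pm ν a b := by
    intro a b
    have k1 : F.Hop (F.Ric0 a b) = F.Hop (F.Ric a b) - F.Hop F.lam * F.P a b := by
      unfold FB.Ric0
      rw [(hPA (F.Ric a b) (F.lam * F.P a b)).2.2.1, hPf]
    have k2 : F.Hop (F.Ric a b) = ∑ c, (2 : ℝ) • F.QR a c b c := by
      unfold FB.Ric
      rw [hop_sum]
      exact Finset.sum_congr rfl fun c _ => hEVM n T F hF hRF a c b c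
    simp only [hHh]
    rw [k1, k2, map_sub, map_mul, hPev, map_sum]
    congr 1
    rw [← ric_Q R hHR.1 a b, Finset.mul_sum]
    refine Finset.sum_congr rfl fun c _ => ?_
    rw [map_smul, hQR, smul_eq_mul]
  have hRP : ∀ a b, ∑ e, ∑ f, R a e b f * Pm ν e f = Ric R a b := by
    intro a b
    unfold Ric
    refine Finset.sum_congr rfl fun e _ => ?_
    have k1 : ∑ f, R a e b f * Pm ν e f = (∑ f, R a e b f * (if e = f then 1 else 0))
        - ν e * ∑ f, R a e b f * ν f := by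
      rw [Finset.mul_sum, ← Finset.sum_sub_distrib]
      refine Finset.sum_congr rfl fun b _ => ?_
      simp only [Pm]
      ring
    rw [k1, hHR.2, mul_zero, sub_zero]
    simp
  have hact : ∀ a b, ∑ e, ∑ f, R a e b f * Ric R e f = (∑ e, ∑ f, R a e b f * h e f) + l * Ric R a b := by
    intro a b
    rw [← hRP a b, Finset.mul_sum, ← Finset.sum_add_distrib]
    refine Finset.sum_congr rfl fun e _ => ?_
    rw [Finset.mul_sum, ← Finset.sum_add_distrib]
    refine Finset.sum_congr rfl fun f _ => ?_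
    rw [hh1]
    ring
  have hS : ∑ a, ∑ b, h a b * Hh a b = 2 * (∑ a, ∑ b, h a b * ∑ e, ∑ f, R a e b f * h e f)
      + 2 * l * u := by
    have k1 : ∀ a b, h a b * Hh a b = 2 * (h a b * ∑ e, ∑ f, R a e b f * h e f)
        + 2 * l * h a b ^ 2 + (2 * l ^ 2 - F.ev z t (F.Hop F.lam)) * (h a b * Pm ν a b) := by
      intro a b
      rw [hHh1, hact]
      have : Ric R a b = h a b + l * Pm ν a b := by rw [hh1]; ring
      rw [this]
      ring
    simp only [k1, Finset.sum_add_distrib, ← Finset.mul_sum]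
    rw [htf, ← hu1]
    ring
  -- bound of the curvature
  have hRle : ∀ a b c d, |R a b c d| ≤ (n : ℝ) ^ 3 * l := by
    have k1 : ∑ a, ∑ b, ∑ c, ∑ d, pull ι R a b c d ^ 2 ≤ ((n : ℝ) ^ 3 * l) ^ 2 := by
      have k2 : ∀ a b c d, pull ι R a b c d ^ 2 ≤ ((n : ℝ) * l) ^ 2 := by
        intro a b c d
        rw [← sq_abs (pull ι R a b c d)]
        have k3 := hbd a b c d
        rw [← hlamev] at k3
        exact pow_le_pow_left₀ (abs_nonneg _) k3 2
      calc ∑ a, ∑ b, ∑ c, ∑ d, pull ι R a b c d ^ 2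
          ≤ ∑ a : Fin n, ∑ b : Fin n, ∑ c : Fin n, ∑ d : Fin n, ((n : ℝ) * l) ^ 2 :=
            Finset.sum_le_sum fun a _ => Finset.sum_le_sum fun b _ => Finset.sum_le_sum fun c _ =>
              Finset.sum_le_sum fun d _ => k2 a b c d
        _ = ((n : ℝ) ^ 3 * l) ^ 2 := by
            simp only [Finset.sum_const, Finset.card_univ, Fintype.card_fin, nsmul_eq_mul]
            ring
    intro a b c d
    have k2 : R a b c d ^ 2 ≤ ((n : ℝ) ^ 3 * l) ^ 2 := by
      refine le_trans ?_ k1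
      rw [← hsq]
      calc R a b c d ^ 2 ≤ ∑ d', R a b c d' ^ 2 :=
            Finset.single_le_sum (f := fun d' => R a b c d' ^ 2) (fun _ _ => sq_nonneg _)
              (Finset.mem_univ d)
        _ ≤ ∑ c', ∑ d', R a b c' d' ^ 2 :=
            Finset.single_le_sum (f := fun c' => ∑ d', R a b c' d' ^ 2)
              (fun _ _ => Finset.sum_nonneg fun _ _ => sq_nonneg _) (Finset.mem_univ c)
        _ ≤ ∑ b', ∑ c', ∑ d', R a b' c' d' ^ 2 :=
            Finset.single_le_sum (f := fun b' => ∑ c', ∑ d', R a b' c' d' ^ 2)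
              (fun _ _ => Finset.sum_nonneg fun _ _ => Finset.sum_nonneg fun _ _ => sq_nonneg _)
              (Finset.mem_univ b)
        _ ≤ ∑ a', ∑ b', ∑ c', ∑ d', R a' b' c' d' ^ 2 :=
            Finset.single_le_sum (f := fun a' => ∑ b', ∑ c', ∑ d', R a' b' c' d' ^ 2)
              (fun _ _ => Finset.sum_nonneg fun _ _ => Finset.sum_nonneg fun _ _ =>
                Finset.sum_nonneg fun _ _ => sq_nonneg _)
              (Finset.mem_univ a)
    exact abs_le_of_sq_le_sq k2 (by positivity)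
  have hS2 : ∑ a, ∑ b, h a b * Hh a b ≤ C1 * l * u := by
    have k1 := quad R h ((n : ℝ) ^ 3 * l) hRle
    rw [← hu1] at k1
    have k2 : ((n + 1 : ℕ) : ℝ) = m := by rw [hm]; push_cast; ring
    rw [k2] at k1
    rw [hS, hC1]
    exact num3 _ _ _ _ _ k1
  -- `Hop lam ≥ 0`
  have hHl : 0 ≤ F.ev z t (F.Hop F.lam) := by
    rw [hS1, map_smul, smul_eq_mul]
    refine mul_nonneg (by positivity) ?_
    simp only [map_sum, map_pow]
    exact Finset.sum_nonneg fun a _ => Finset.sum_nonneg fun b _ => sq_nonneg _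
  -- the gradient
  have hnul : ∑ b, ν b * lc b = 0 := by
    have k1 := congrArg (F.ev z t) (hF.nuH F.lam)
    simpa only [map_sum, map_mul, map_zero, hν, FB.nv, hlc] using k1
  have hn0 : (n : ℝ) ≠ 0 := by positivity
  have hPl : ∀ c, ∑ b, lc b * Pm ν b c = lc c := by
    intro c
    have k1 : ∑ b, lc b * Pm ν b c = (∑ b, lc b * (if b = c then 1 else 0))
        - ν c * ∑ b, ν b * lc b := by
      rw [Finset.mul_sum, ← Finset.sum_sub_distrib]
      refine Finset.sum_congr rfl fun b _ => ?_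
      simp only [Pm]
      ring
    rw [k1, hnul, mul_zero, sub_zero]
    simp
  have htr : ∀ b, ∑ a, dh a a b = ((n : ℝ) - 2) / 2 * lc b := by
    intro b
    have k1 := congrArg (F.ev z t) (hdiv b)
    have k2 : F.H b (∑ a, F.Ric a a) = (n : ℝ) • F.H b F.lam := by
      rw [← Derivation.map_smul]
      congr 1
      unfold FB.lam
      rw [smul_smul, mul_one_div_cancel hn0, one_smul]
    rw [k2, map_smul, map_smul, map_sum, smul_eq_mul, smul_eq_mul] at k1
    have k3 : ∀ a, dh a a b = F.ev z t (F.H a (F.Ric a b)) - lc a * Pm ν a b := by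
      intro a
      simp only [hdh, FB.Ric0, map_sub]
      rw [Derivation.leibniz, hPH, smul_zero, zero_add, smul_eq_mul, map_mul, hPev, mul_comm]
    rw [Finset.sum_congr rfl fun a _ => k3 a, Finset.sum_sub_distrib, hPl]
    simp only [hlc] at k1 ⊢
    linarith
  have hG : F.ev z t (F.gg F.lam F.lam) = ∑ b, lc b ^ 2 := by
    simp only [FB.gg, map_sum, map_mul, hlc, sq]
  set G : ℝ := ∑ b, lc b ^ 2 with hG'
  have hG0 : 0 ≤ G := Finset.sum_nonneg fun b _ => sq_nonneg _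
  -- `h(∇λ,∇λ)`
  have hnrm : nrm (pullr ι lc) = G := by
    have k1 : nrm (pullr ι lc) = ∑ i, ∑ j, (∑ a, ι i a * ι j a) * (lc i * lc j) := by
      have k2 : nrm (pullr ι lc) = ∑ a, ∑ i, ∑ j, (ι i a * ι j a) * (lc i * lc j) := by
        unfold nrm pullr
        refine Finset.sum_congr rfl fun a _ => ?_
        rw [sq, Finset.sum_mul_sum]
        refine Finset.sum_congr rfl fun i _ => Finset.sum_congr rfl fun j _ => ?_
        ring
      rw [k2, Finset.sum_comm]
      refine Finset.sum_congr rfl fun i _ => ?_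
      rw [Finset.sum_comm]
      refine Finset.sum_congr rfl fun j _ => ?_
      rw [Finset.sum_mul]
    rw [k1]
    have k3 : ∀ i, ∑ j, (∑ a, ι i a * ι j a) * (lc i * lc j) = lc i ^ 2 := by
      intro i
      have k4 : ∑ j, (∑ a, ι i a * ι j a) * (lc i * lc j) =
          (∑ j, (if i = j then 1 else 0) * (lc i * lc j)) - (ν i * lc i) * ∑ j, ν j * lc j := by
        rw [Finset.mul_sum, ← Finset.sum_sub_distrib]
        refine Finset.sum_congr rfl fun j _ => ?_
        rw [hι.compl]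
        ring
      rw [k4, hnul, mul_zero, sub_zero]
      simp [sq]
    exact Finset.sum_congr rfl fun i _ => k3 i
  have hhG : ∑ b, (∑ a, h a b * lc a) * lc b ≤ (((n : ℝ) - 2) / 2 - κ) * l * G := by
    have k1 := hup (pullr ι lc)
    rw [← hrq lc, hnrm, ← hlamev] at k1
    have k2 : ∑ b, (∑ a, h a b * lc a) * lc b = rq (Ric R) lc - l * G := by
      have k3 : ∀ b, (∑ a, h a b * lc a) * lc b = (∑ a, Ric R b a * lc b * lc a)
          - l * lc b ^ 2 := by
        intro b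
        have k4 : ∑ a, h a b * lc a = (∑ a, Ric R b a * lc a) - l * lc b := by
          rw [← hPl b, Finset.mul_sum, ← Finset.sum_sub_distrib]
          refine Finset.sum_congr rfl fun a _ => ?_
          rw [hh1, hRsym a b]
          ring
        rw [k4, sub_mul, Finset.sum_mul]
        congr 1
        · refine Finset.sum_congr rfl fun a _ => ?_
          ring
        · ring
      rw [Finset.sum_congr rfl fun b _ => k3 b, Finset.sum_sub_distrib, ← Finset.mul_sum]
      rfl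
    rw [k2]
    exact num1 _ _ _ _ _ hκ k1
  have hgr := grad (fun c a b => l * dh c a b - h a b * lc c) lc (κ * l) (by positivity) (by
    have k1 : ∑ b, (∑ a, (l * dh a a b - h a b * lc a)) * lc b
        = ((n : ℝ) - 2) / 2 * l * G - ∑ b, (∑ a, h a b * lc a) * lc b := by
      rw [hG', Finset.mul_sum, ← Finset.sum_sub_distrib]
      refine Finset.sum_congr rfl fun b _ => ?_
      rw [Finset.sum_sub_distrib, ← Finset.mul_sum, htr]
      ring
    show κ * l * G ≤ ∑ b, (∑ a, (l * dh a a b - h a b * lc a)) * lc b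
    rw [k1]
    exact num2 _ _ _ _ _ hhG)
  set W : ℝ := ∑ c, ∑ a, ∑ b, (l * dh c a b - h a b * lc c) ^ 2 with hW
  have hgr' : κ ^ 2 * l ^ 2 * G ≤ m * W := by
    have k2 : ((n + 1 : ℕ) : ℝ) = m := by rw [hm]; push_cast; ring
    rw [k2] at hgr
    calc κ ^ 2 * l ^ 2 * G = (κ * l) ^ 2 * G := by ring
      _ ≤ m * W := hgr
  -- conclusion
  set Y : ℝ := F.ev z t (F.Hop y) with hY
  have hW2 : c * l ^ 2 * G ≤ 2 * W := by
    have k1 : c * l ^ 2 * G = 2 * (κ ^ 2 * l ^ 2 * G) / m := by rw [hc]; ring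
    rw [k1, div_le_iff₀ hm0]
    linarith
  have f2 : Y ≤ 2 * C1 * u - c * (G / l) := num5 _ _ _ _ _ _ _ _ _ hl0 hu0 hHl key hS2 hW2
  rw [hG]
  have hGl : 0 ≤ G / l := by positivity
  exact num4 _ _ _ _ _ hC10 hc0 hu0 hGl f2

end Pool.Agent.Helper47.FLG
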